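import Pool.Agent.Helper89_Planar.Conn
import Pool.Agent.Helper89_Planar.Cyc
import Pool.Agent.Helper89_Planar.Draw

/-!
# A 4-connected planar graph with a vertex whose deletion destroys all 7-cycles

The graph has 69 vertices. Start with four wheels with four spokes, arranged in a square and joined
by four edges between rim vertices, each wheel having two free rim vertices. Add eight squares of
paths on six vertices `1, ..., 6`; vertex `5` of each of them is joined to a free rim vertex, and
the eight squares of paths form a ring, consecutive ones being joined by an edge between the two
vertices `1` or between the two vertices `6`. The last vertex `v` is joined to the vertices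
`1, 2, 4, 6` of all squares of paths. All these blocks have at most six vertices, and every cycle
avoiding `v` and using an edge between two blocks has length at least eight.
-/

set_option autoImplicit false

namespace Pool.Agent.Results.MP_b7b26a_co.NoSevenCycle

open Pool.Agent.Helper89_Planar

/-- **Q1 is answered in the negative.** There is a 4-connected planar graph `G` on `n = 69`
vertices, with a vertex `v` such that `G - v` has no cycle of length `7` (and `7` is one of the
lengths `3, 5, 6, ..., n - 1`). -/
theorem result : ∃ (G : SimpleGraph (Fin 69)) (v : Fin 69),
    FourConnected G ∧ Planar G ∧ ¬ HasCycleOfLength (G.induce {x | x ≠ v}) 7 :=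
  ⟨G, 0, fourConnected, planar, noSevenCycle⟩

end Pool.Agent.Results.MP_b7b26a_co.NoSevenCycle
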